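import Pool.Agent.Helper32.AG.Goals

/-!
# Packet AG-GRP: two bounds for class numbers
-/

set_option autoImplicit false

namespace Pool.Agent.Helper68.AG

open Pool.Agent.Helper32.AG

universe u

/-- Commutative groups. -/
theorem k_comm (X : Type u) [Group X] (h : ∀ x y : X, x * y = y * x) : k X = Nat.card X := by
  refine (Nat.card_congr (Equiv.ofBijective (ConjClasses.mk : X → ConjClasses X) ⟨?_, ?_⟩)).symm
  · intro a b hab
    obtain ⟨c, hc⟩ := isConj_iff.1 (ConjClasses.mk_eq_mk_iff_isConj.1 hab)
    rw [← hc, h c a, mul_inv_cancel_right]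
  · exact ConjClasses.mk_surjective

/-- The first bound. -/
theorem grp1 (X : Type u) [Group X] [Finite X] (N : Subgroup X) [N.Normal]
    (hN : ∀ x ∈ N, ∀ y ∈ N, x * y = y * x) :
    N.index * k (X ⧸ N) + Nat.card N ≤ N.index * k X + 1 := by
  classical
  let : Fintype (X ⧸ N) := Fintype.ofFinite _
  let : Fintype (ConjClasses X) := Fintype.ofFinite _
  let : Fintype (ConjClasses (X ⧸ N)) := Fintype.ofFinite _
  let : Fintype N := Fintype.ofFinite _
  set f : ConjClasses X → ConjClasses (X ⧸ N) := ConjClasses.map (QuotientGroup.mk' N) with hfdef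
  have hf : Function.Surjective f := ConjClasses.map_surjective (QuotientGroup.mk'_surjective N)
  have hfmk : ∀ x : X, f (ConjClasses.mk x) = ConjClasses.mk (QuotientGroup.mk' N x) :=
    fun x => rfl
  set o : ConjClasses X := ConjClasses.mk 1 with ho
  set o' : ConjClasses (X ⧸ N) := ConjClasses.mk 1 with ho'
  have hfo : f o = o' := by
    rw [ho, hfmk, map_one]
  set T1 : Finset (ConjClasses X) := Finset.univ.filter fun c => f c = o' ∧ c ≠ o with hT1
  set T2 : Finset (ConjClasses X) := Finset.univ.filter fun c => f c ≠ o' with hT2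
  have hk1 : 1 + T1.card + T2.card ≤ k X := by
    unfold k
    rw [Nat.card_eq_fintype_card, ← Finset.card_univ]
    have hd1 : Disjoint ({o} : Finset (ConjClasses X)) T1 := by
      rw [Finset.disjoint_singleton_left, hT1]
      simp
    have hd2 : Disjoint ({o} ∪ T1 : Finset (ConjClasses X)) T2 := by
      rw [Finset.disjoint_left]
      intro c hc1 hc2
      simp only [Finset.mem_union, Finset.mem_singleton, hT1, hT2, Finset.mem_filter,
        Finset.mem_univ, true_and] at hc1 hc2
      rcases hc1 with rfl | hc1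
      · exact hc2 hfo
      · exact hc2 hc1.1
    have := Finset.card_le_card (Finset.subset_univ (({o} ∪ T1) ∪ T2))
    rw [Finset.card_union_of_disjoint hd2, Finset.card_union_of_disjoint hd1,
      Finset.card_singleton] at this
    exact this
  have hk2 : k (X ⧸ N) ≤ T2.card + 1 := by
    unfold k
    rw [Nat.card_eq_fintype_card, ← Finset.card_univ]
    have h1 : (Finset.univ.erase o' : Finset (ConjClasses (X ⧸ N))) ⊆ T2.image f := by
      intro d hd
      obtain ⟨c, rfl⟩ := hf d
      refine Finset.mem_image_of_mem f ?_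
      rw [hT2, Finset.mem_filter]
      exact ⟨Finset.mem_univ _, Finset.ne_of_mem_erase hd⟩
    have h2 := (Finset.card_le_card h1).trans Finset.card_image_le
    rw [Finset.card_erase_of_mem (Finset.mem_univ _)] at h2
    omega
  have hN1 : Nat.card N ≤ N.index * T1.card + 1 := by
    rw [Nat.card_eq_fintype_card, ← Finset.card_univ]
    set g : N → ConjClasses X := fun n => ConjClasses.mk (n : X) with hg
    have h1 : (Finset.univ.erase (1 : N)).image g ⊆ T1 := by
      intro c hc
      obtain ⟨n, hn, rfl⟩ := Finset.mem_image.1 hc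
      rw [hT1, Finset.mem_filter]
      refine ⟨Finset.mem_univ _, ?_, ?_⟩
      · rw [hg]
        simp only [hfmk]
        rw [ho', QuotientGroup.mk'_apply, (QuotientGroup.eq_one_iff (n : X)).2 n.2]
      · intro h
        rw [hg, ho] at h
        have h2 := ConjClasses.mk_eq_mk_iff_isConj.1 h
        have h3 : (n : X) = 1 := isConj_one_left.1 h2
        exact Finset.ne_of_mem_erase hn (Subtype.ext h3)
    have h2 : (Finset.univ.erase (1 : N)).card ≤
        N.index * ((Finset.univ.erase (1 : N)).image g).card := by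
      refine Finset.card_le_mul_card_image _ _ ?_
      intro c hc
      obtain ⟨n₀, hn₀, rfl⟩ := Finset.mem_image.1 hc
      have h3 : (((Finset.univ.erase (1 : N)).filter fun n => g n = g n₀).image
          (fun n : N => (n : X))) ⊆
          (Finset.univ : Finset (X ⧸ N)).image fun q => q.out * (n₀ : X) * q.out⁻¹ := by
        intro x hx
        obtain ⟨n, hn, rfl⟩ := Finset.mem_image.1 hx
        have hn2 := (Finset.mem_filter.1 hn).2
        obtain ⟨c, hc⟩ := isConj_iff.1 (ConjClasses.mk_eq_mk_iff_isConj.1 hn2).symm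
        refine Finset.mem_image.2 ⟨(c : X ⧸ N), Finset.mem_univ _, ?_⟩
        have h4 : ((c : X ⧸ N).out : X ⧸ N) = (c : X ⧸ N) := Quotient.out_eq' _
        have h5 : c⁻¹ * (c : X ⧸ N).out ∈ N := QuotientGroup.eq.1 h4.symm
        obtain ⟨v, hv, hv2⟩ : ∃ v ∈ N, (c : X ⧸ N).out = c * v :=
          ⟨_, h5, by group⟩
        rw [hv2, ← hc]
        have h6 := hN v hv n₀ n₀.2
        calc c * v * (n₀ : X) * (c * v)⁻¹ = c * (v * (n₀ : X)) * v⁻¹ * c⁻¹ := by group
          _ = c * ((n₀ : X) * v) * v⁻¹ * c⁻¹ := by rw [h6]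
          _ = c * (n₀ : X) * c⁻¹ := by group
      have h4 := (Finset.card_le_card h3).trans Finset.card_image_le
      rw [Finset.card_image_of_injective _ Subtype.val_injective, Finset.card_univ,
        ← Nat.card_eq_fintype_card] at h4
      exact h4
    have h3 := h2.trans (Nat.mul_le_mul_left _ (Finset.card_le_card h1))
    rw [Finset.card_erase_of_mem (Finset.mem_univ _)] at h3
    omega
  have e1 : N.index * k (X ⧸ N) ≤ N.index * (T2.card + 1) := Nat.mul_le_mul_left _ hk2
  have e2 : N.index * (1 + T1.card + T2.card) ≤ N.index * k X := Nat.mul_le_mul_left _ hk1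
  have e3 : N.index * (1 + T1.card + T2.card) =
      N.index * (T2.card + 1) + N.index * T1.card := by ring
  omega

/-- Packet AG-GRP. -/
theorem grp : GrpStmt.{u} := by
  refine ⟨grp1, ?_, k_comm⟩
  intro X _ _ B hB hc
  have : B.Normal := Subgroup.normal_of_index_eq_two hB
  have h1 := grp1 X B hc
  have h2 : k (X ⧸ B) = 2 := by
    have h3 : Nat.card (X ⧸ B) = 2 := hB
    have : Fact (Nat.Prime 2) := ⟨Nat.prime_two⟩
    have h4 : IsCyclic (X ⧸ B) := isCyclic_of_prime_card h3
    rw [k_comm (X ⧸ B) fun x y => ?_, h3]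
    let := IsCyclic.commGroup (α := X ⧸ B)
    exact mul_comm x y
  rw [hB, h2] at h1
  omega

end Pool.Agent.Helper68.AG
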